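import Pool.Agent.helper58.FI4.SpecC

set_option autoImplicit false

namespace Pool.Agent.FI4C

open Pool.Agent.helper58.DC Pool.Agent.DI Pool.Agent.GR Pool.Agent.OB Pool.Agent.DR Pool.Agent.FI Pool.Agent.FI3 Pool.Agent.FI4

theorem CCL : CCL_stmt := by
  classical
  intro A T cl g h1 h2 h3
  rw [← Finset.sum_fiberwise_of_maps_to (s := T) (t := T.image cl) (g := cl)
    (fun x hx => Finset.mem_image_of_mem cl hx) g]
  refine Finset.sum_eq_zero fun y hy => ?_
  obtain ⟨η, hη, rfl⟩ := Finset.mem_image.1 hy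
  have e : T.filter (fun x => cl x = cl η) = cl η := by
    ext x
    rw [Finset.mem_filter]
    constructor
    · rintro ⟨hx, hxe⟩
      rw [← hxe]
      exact (h1 x hx).1
    · intro hx
      exact ⟨(h1 η hη).2 hx, h2 η hη x hx⟩
  rw [e]
  exact h3 η hη

end Pool.Agent.FI4C
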